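import Pool.Agent.KO.A.Main
import Pool.Agent.KO.A.Nf
import Pool.Agent.KO.A.Cls
import Pool.Agent.KO.A.Ev
import Pool.Agent.KO.A.Dens
import Pool.Agent.KO.A.Ufd
import Pool.Agent.KO.A.Lin
import Pool.Agent.KO.A.Mer
import Pool.Agent.KO.A.Map
import Pool.Agent.KO.A.Pos
import Pool.Agent.KO.B.Main
import Pool.Agent.KO.B.Loc
import Pool.Agent.KO.B.Minor
import Pool.Agent.KO.B.Ind
import Pool.Agent.KO.B.Alg
import Pool.Agent.KO.B.Clear
import Pool.Agent.KO.GA.All
import Pool.Agent.KO.Xa.Main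
import Pool.Agent.KO.Xc.P
import Pool.Agent.KO.U.Ufd

/-!
# Project KO: blocks A and B
-/

set_option autoImplicit false

namespace Pool.Agent.KO

theorem clsA : SpCls := sp_cls sp_nf sp_nfU

theorem zerA : SpZer := sp_zer clsA sp_ev

theorem denFA : SpDenF := sp_denF sp_ev

theorem denA : SpDen := sp_den sp_nf clsA denFA

theorem charZeroK (r : ℝ) [Fact (0 < r)] : CharZero (Kr r) := by
  have h1 : CharZero (AnR r) := by
    refine ⟨fun a b h => ?_⟩
    have h0 : (0 : ℂ) ∈ Metric.ball (0 : ℂ) r := by simpa using (Fact.out : 0 < r)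
    have h2 := congrArg (evR ⟨0, h0⟩) h
    rw [map_natCast, map_natCast] at h2
    exact_mod_cast h2
  exact charZero_of_injective_algebraMap (IsFractionRing.injective (AnR r) (Kr r))

theorem domA (r : ℝ) [Fact (0 < r)] : IsDomain (Raff (tK r)) := isDomain_Raff _

theorem ufdA (r : ℝ) [Fact (0 < r)] : UniqueFactorizationMonoid (Raff (tK r)) :=
  haveI := charZeroK r
  ufd_Raff _

/-- The bimeromorphic map is given by polynomials. -/
theorem secA : SpSec :=
  sp_sec sp_nf sp_nfU clsA sp_ev zerA denA (sp_ufd sp_nf clsA (sp_rep sp_nf)) sp_t2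
    (sp_mer sp_lin sp_t2) (sp_map sp_ev zerA denA) (sp_pos sp_ev denFA) GA.gMain
    (fun F => F.xaFacts) pFacts (fun r _ => domA r) (fun r _ => ufdA r)

/-- The affine coordinates are algebraic over the homogeneous coordinates. -/
theorem relB : SpB :=
  sp_b sp_ev zerA (sp_b1 sp_ev clsA denFA denA) sp_b2 (sp_b3 sp_ev clsA zerA) sp_b4 sp_b5
    (fun F => F.xaFacts) pFacts (fun r _ => domA r)

end Pool.Agent.KO
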