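import Mathlib

/-!
# Common data of project KO (MP_eb6d9f_ag)

Coordinates of the cone: `p : Fin 6 → ℂ`, `p 0 = z`, `p 1 = u`, `p 2 = w`, `p 3 = x`, `p 4 = y`
(weights 1, 5, 6, 22, 33) and `p 5 = t` (weight 0).

Coordinates of the flip chart: `q : Fin 5 → ℂ`, `q 0 = A₁`, `q 1 = A₂`, `q 2 = A₃` (weights
-1, -2, -3), `q 3 = z`, `q 4 = w` (weights 1, 6).
-/

set_option autoImplicit false

namespace Pool.Agent.KO

open Set Filter Topology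

/-- The weights of `z, u, w, x, y, t`. -/
def wgt : Fin 6 → ℕ := ![1, 5, 6, 22, 33, 0]

/-- The equation `y² + x³ + t w¹¹ + u z w¹⁰ + u¹² w - z⁶⁶ - z¹² w⁹`. -/
def G (p : Fin 6 → ℂ) : ℂ :=
  p 4 ^ 2 + p 3 ^ 3 + p 5 * p 2 ^ 11 + p 1 * p 0 * p 2 ^ 10 + p 1 ^ 12 * p 2 - p 0 ^ 66
    - p 0 ^ 12 * p 2 ^ 9

/-- The action of `ℂ^*` on the cone. -/
def act (l : ℂ) (p : Fin 6 → ℂ) : Fin 6 → ℂ := fun i => l ^ wgt i * p i

/-- The cone over the family over the unit disc, without the vertices. -/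
def Cone : Set (Fin 6 → ℂ) := {p | G p = 0 ∧ (∃ i : Fin 6, i ≠ 5 ∧ p i ≠ 0) ∧ ‖p 5‖ < 1}

/-- The cone over the curve `Γ`: `t = 0`, `u = 0`, `x = z⁴ w³`, `y = z³³`. -/
def Gam : Set (Fin 6 → ℂ) :=
  {p | p 5 = 0 ∧ p 1 = 0 ∧ p 3 = p 0 ^ 4 * p 2 ^ 3 ∧ p 4 = p 0 ^ 33}

/-- The weights of `A₁, A₂, A₃, z, w`. -/
def wgt' : Fin 5 → ℤ := ![-1, -2, -3, 1, 6]

/-- The action of `ℂ^*` on the flip chart. -/
noncomputable def act' (l : ℂ) (q : Fin 5 → ℂ) : Fin 5 → ℂ := fun i => l ^ wgt' i * q i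

/-- The size of `A`. -/
noncomputable def nA (q : Fin 5 → ℂ) : ℝ :=
  max ‖q 0‖ (max (‖q 1‖ ^ (1 / 2 : ℝ)) (‖q 2‖ ^ (1 / 3 : ℝ)))

/-- The size of `(z, w)`. -/
noncomputable def nZ (q : Fin 5 → ℂ) : ℝ := max ‖q 3‖ (‖q 4‖ ^ (1 / 6 : ℝ))

/-- The domain of the flip chart. -/
def Dom (ρ : ℝ) : Set (Fin 5 → ℂ) := {q | nA q * nZ q < ρ}

/-- The affine equation, `z = 1`, in the variables `u, w, x, y`, over a ring with an element
`t`. -/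
noncomputable def gAff {k : Type} [CommRing k] (t : k) : MvPolynomial (Fin 4) k :=
  MvPolynomial.X 3 ^ 2 + MvPolynomial.X 2 ^ 3 + MvPolynomial.C t * MvPolynomial.X 1 ^ 11
    + MvPolynomial.X 0 * MvPolynomial.X 1 ^ 10 + MvPolynomial.X 0 ^ 12 * MvPolynomial.X 1 - 1
    - MvPolynomial.X 1 ^ 9

/-- The weights of `u, w, x, y`. -/
def wAff : Fin 4 → ℕ := ![5, 6, 22, 33]

/-- The ring of analytic functions on the disc of radius `r`. -/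
def AnR (r : ℝ) : Subring (Metric.ball (0 : ℂ) r → ℂ) where
  carrier := {f | ∃ F : ℂ → ℂ, AnalyticOnNhd ℂ F (Metric.ball 0 r) ∧ ∀ s, f s = F s}
  mul_mem' := by
    rintro f g ⟨F, hF, hf⟩ ⟨G, hG, hg⟩
    exact ⟨F * G, hF.mul hG, fun s => by simp [hf, hg]⟩
  one_mem' := ⟨fun _ => 1, fun _ _ => analyticAt_const, fun _ => rfl⟩
  add_mem' := by
    rintro f g ⟨F, hF, hf⟩ ⟨G, hG, hg⟩
    exact ⟨F + G, hF.add hG, fun s => by simp [hf, hg]⟩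
  zero_mem' := ⟨fun _ => 0, fun _ _ => analyticAt_const, fun _ => rfl⟩
  neg_mem' := by
    rintro f ⟨F, hF, hf⟩
    exact ⟨-F, hF.neg, fun s => by simp [hf]⟩

/-- The coordinate function of the disc. -/
def tR (r : ℝ) : AnR r := ⟨fun s => s, fun s => s, fun _ _ => analyticAt_id, fun _ => rfl⟩

/-- Evaluation at the point `s` of the disc. -/
def evR {r : ℝ} (s : Metric.ball (0 : ℂ) r) : AnR r →+* ℂ :=
  (Pi.evalRingHom (fun _ => ℂ) s).comp (AnR r).subtype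

/-- The affine coordinates `u, w, x, y` of a point with `z = 1`. -/
def affPt (p : Fin 6 → ℂ) : Fin 4 → ℂ := ![p 1, p 2, p 3, p 4]

end Pool.Agent.KO
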