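import Pool.Agent.KO.Final
import Pool.Agent.KO.AB
import Pool.Agent.KO.Xb.All
import Pool.Agent.KO.Xc.Main
import Pool.Agent.KO.Xd.All
import Pool.Agent.KO.E.MainL
import Pool.Agent.KO.E.RKap
import Pool.Agent.KO.M.KeymNf

/-!
# Project KO (MP_eb6d9f_ag): the theorem
-/

set_option autoImplicit false

namespace Pool.Agent.KO

theorem spKeym : SpKeym := by
  intro k _ _ E _ _ D t ht W hg hJ N s m hnf hs htop hcop j hj f hf hrel
  exact keym_end D t ht W hg hJ s m hnf hs htop hcop j hj f hf hrel

theorem spEnd : SpEnd := fun F r N S hr hr1 hS b =>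
  no_model sp_ev denFA (spKap_of spKeym denFA denA relB) secA F F.xaFacts r hr hr1 N S hS b

/-- **The theorem.** -/
theorem statement_true : Statement :=
  statement_of (fun F => F.xaFacts) (fun F => F.isSpace) (fun F => F.isMoishezon)
    (fun F => F.canonFib) spEnd

end Pool.Agent.KO
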