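import Pool.Agent.KO.Xa.Defs
import Pool.Agent.KO.F.Main

/-!
# Project KO (MP_eb6d9f_ag): the final assembly from the blocks
-/

set_option autoImplicit false

namespace Pool.Agent.KO

open Set Filter Topology

/-- The end: no good model is fiberwise bimeromorphic to the family. -/
def SpEnd : Prop := ∀ (F : Flip) (r : ℝ) (N : ℕ) (S : Set (PN N × ℂ)), 0 < r → r ≤ 1 →
  IsGoodModel r S 3 → ∀ b : Bimer F.O F.g r S, ¬ b.Fiberwise

theorem statement_of (hXa : ∀ F : Flip, F.XaFacts) (hXb : ∀ F : Flip, IsSpace F.O)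
    (hXc : ∀ F : Flip, IsMoishezon F.O F.g) (hXd : ∀ F : Flip, CanonFib F.O F.g 0 3)
    (hE : SpEnd) : Statement := by
  obtain ⟨F⟩ := exists_flip
  have h := hXa F
  exact ⟨F.Sp, inferInstance, F.O, F.g,
    { t2 := h.t2
      second := h.second
      space := hXb F
      hol := h.hol
      disc := h.disc
      proper := h.proper
      flat := h.flat
      moishezon := hXc F },
    hXd F, fun r hr hr1 N S hS b => hE F r N S hr hr1 hS b⟩

end Pool.Agent.KO
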